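import Pool.Agent.H73.GWQ.Stmts2
import Pool.Agent.H73.GWT.RES

/-!
Project GWQ: the conclusion, from the rows.
-/

set_option autoImplicit false

open Classical

namespace GWQ

/-- the pseudo-metric of orbit points -/
noncomputable def orbQM {G V W : Type*} [Group G] [MulAction G V] (hISO : ISOStmt G V)
    {X : SimpleGraph V} (hX : X.Connected)
    (act : ∀ (g : G) (u v : V), X.Adj u v → X.Adj (g • u) (g • v))
    {T : SimpleGraph W} (hT : T.IsTree) (F : V → W) (c : ℕ)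
    (hF1 : ∀ u v : V, X.dist u v ≤ T.dist (F u) (F v) + c)
    (hF2 : ∀ u v : V, T.dist (F u) (F v) ≤ X.dist u v + c) (o : V) : QM G W where
  T := T
  tree := hT
  f := fun g => F (g • o)
  d := fun g h => X.dist (g • o) (h • o)
  δ := c
  inv := by
    intro k g h
    show X.dist ((k * g) • o) ((k * h) • o) = X.dist (g • o) (h • o)
    rw [mul_smul, mul_smul]
    exact hISO X hX act k _ _
  comm := fun g h => X.dist_comm
  tri := fun g h k => hX.dist_triangle
  self := fun g => X.dist_self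
  le1 := fun g h => hF1 _ _
  le2 := fun g h => hF2 _ _

theorem RESQ {G V W : Type*} [Group G] [MulAction G V] (hISO : ISOStmt G V)
    (hN2 : ∀ D : QM G W, N2QStmt D) (hN8 : ∀ D : QM G W, N8QStmt D)
    (hN9 : ∀ D : QM G W, N9QStmt D)
    (hB6 : ∀ (D : QM G W) (S : Type), B6QStmt D S)
    (hGF : ∀ (n : ℕ) (C : QCode (Fin n → Bool) G W), GFQStmt C)
    {X : SimpleGraph V} (hX : X.Connected)
    (act : ∀ (g : G) (u v : V), X.Adj u v → X.Adj (g • u) (g • v))
    {T : SimpleGraph W} (hT : T.IsTree) (F : V → W) (c : ℕ)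
    (hF1 : ∀ u v : V, X.dist u v ≤ T.dist (F u) (F v) + c)
    (hF2 : ∀ u v : V, T.dist (F u) (F v) ≤ X.dist u v + c)
    {k : ℕ} (rels : Set (FreeGroup (Fin k))) (φ : FreeGroup (Fin k) →* G)
    (hφ : Function.Surjective φ) (hrels : ∀ r ∈ rels, φ r = 1)
    (o : V) (h : G) (A : ℕ) (hlox : ∀ n : ℕ, n ≤ A * (X.dist o (h ^ n • o) + 1))
    (hwpd : ∀ R : ℕ, ∃ n : ℕ,
      {x : G | X.dist o (x • o) ≤ R ∧ X.dist (h ^ n • o) (x • h ^ n • o) ≤ R}.Finite)
    (hidx : (Subgroup.zpowers h).index = 0) :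
    ∃ f : List (Fin k × Bool) →. Bool,
      Partrec f ∧
      (∀ w : List (Fin k × Bool), ∀ b ∈ f w,
        (b = true ↔ FreeGroup.mk w ∈ Subgroup.normalClosure rels)) ∧
      (∃ C κ : ℝ, 0 < C ∧ 0 < κ ∧ κ < 1 ∧
        ∀ n : ℕ, ({w : List (Fin k × Bool) | w.length = n ∧ ¬ (f w).Dom}.ncard : ℝ) ≤
          C * κ ^ n * ({w : List (Fin k × Bool) | w.length = n}.ncard : ℝ)) ∧
      Filter.Tendsto
        (fun n : ℕ =>
          ({w : List (Fin k × Bool) | w.length ≤ n ∧ (f w).Dom}.ncard : ℝ) /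
            ({w : List (Fin k × Bool) | w.length ≤ n}.ncard : ℝ))
        Filter.atTop (nhds 1) := by
  have hk : 1 ≤ k := by
    by_contra hk0
    have hk0' : k = 0 := by omega
    subst hk0'
    have hall : ∀ g : G, g = 1 := by
      intro g
      obtain ⟨x, hx⟩ := hφ g
      have : x = 1 := Subsingleton.elim _ _
      rw [this, map_one] at hx
      exact hx.symm
    have hh : h = 1 := hall h
    have h1 := hlox (A + 1)
    rw [hh, one_pow, one_smul, X.dist_self] at h1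
    omega
  set D : QM G W := orbQM hISO hX act hT F c hF1 hF2 o with hD
  have hd : ∀ g g' : G, D.d g g' = X.dist (g • o) (g' • o) := fun g g' => rfl
  have hnm : ∀ g : G, D.nm g = X.dist o (g • o) := by
    intro g
    show X.dist ((1 : G) • o) (g • o) = _
    rw [one_smul]
  have hlox' : ∀ n : ℕ, n ≤ A * (D.nm (h ^ n) + 1) := by
    intro n
    rw [hnm]
    exact hlox n
  obtain ⟨N, hN, hReg⟩ := hN2 D h A hlox'
  have hW : WPD D h := by
    intro R
    obtain ⟨n, hn⟩ := hwpd R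
    refine ⟨n, ?_⟩
    have e : {x : G | D.nm x ≤ R ∧ D.d (h ^ n) (x * h ^ n) ≤ R} =
        {x : G | X.dist o (x • o) ≤ R ∧ X.dist (h ^ n • o) (x • h ^ n • o) ≤ R} := by
      ext x
      simp only [Set.mem_ofPred_eq]
      rw [hnm, hd, mul_smul]
    rw [e]
    exact hn
  obtain ⟨hW', hidx'⟩ := hN9 D h N hN hReg hW hidx
  obtain ⟨a, b, q, hP, hfin⟩ := hN8 D (h ^ N) hReg hW' hidx'
  set e : Fin k × Bool → G := fun s => φ (FreeGroup.mk [s]) with he
  obtain ⟨xa, hxa⟩ := hφ a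
  obtain ⟨xb, hxb⟩ := hφ b
  have hea : GWP.ev e xa.toWord = a := by
    rw [he, GWT.RES_ev, FreeGroup.mk_toWord, hxa]
  have heb : GWP.ev e xb.toWord = b := by
    rw [he, GWT.RES_ev, FreeGroup.mk_toWord, hxb]
  obtain ⟨n, C, wd, k₀, c3, c4, c5⟩ := hB6 D (Fin k × Bool) a b q hP hfin e xa.toWord xb.toWord
    hea heb
  obtain ⟨A', hA1, hA2, K, κ, hK, hκ0, hκ1, hb⟩ := hGF n C k e wd k₀ c3 c4 c5
  have hs : ∀ w, FreeGroup.mk w ∈ Subgroup.normalClosure rels → A' w := by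
    intro w hw
    apply hA2
    rw [he, GWT.RES_ev]
    have hle : Subgroup.normalClosure rels ≤ φ.ker :=
      Subgroup.normalClosure_le_normal (fun r hr => hrels r hr)
    exact hle hw
  obtain ⟨f, f1, f2, f3, f4⟩ := GWP.generic_of_exp hk rels A' hA1 hs K κ hK hκ0 hκ1 hb
  exact ⟨f, f1, f2, ⟨K, κ, hK, hκ0, hκ1, f3⟩, f4⟩

end GWQ
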