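import Pool.Agent.H48.GWQ.B1Q
import Pool.Agent.H65.GWQ.B2Q
import Pool.Agent.H53.GWQ.B3Q
import Pool.Agent.H2.GWQ.B4Q
import Pool.Agent.H82.GWQ.B5Q
import Pool.Agent.H60.GWQ.B6Q
import Pool.Agent.H76.GWQ.C1Q
import Pool.Agent.H50.GWQ.C2Q
import Pool.Agent.H71.GWQ.C3Q
import Pool.Agent.H25.GWQ.GFQ
import Pool.Agent.H52.GWQ.GLQ
import Pool.Agent.H78.GWQ.GSQ
import Pool.Agent.H1.GWQ.H4Q
import Pool.Agent.H23.GWQ.H4T
import Pool.Agent.H34.GWQ.INQ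
import Pool.Agent.H70.GWQ.ISO
import Pool.Agent.H44.GWQ.MUQ
import Pool.Agent.H34.GWQ.MVQ
import Pool.Agent.H49.GWQ.MWQ
import Pool.Agent.H14.GWQ.N1Q
import Pool.Agent.H2.GWQ.N2Q
import Pool.Agent.H44.GWQ.N3Q
import Pool.Agent.H21.GWQ.N4Q
import Pool.Agent.H65.GWQ.N5Q
import Pool.Agent.H51.GWQ.N6Q
import Pool.Agent.H34.GWQ.N7Q
import Pool.Agent.H45.GWQ.N8Q
import Pool.Agent.H50.GWQ.N9Q
import Pool.Agent.H54.GWQ.NEA
import Pool.Agent.H34.GWQ.NEB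
import Pool.Agent.H53.GWQ.OVL
import Pool.Agent.H22.GWQ.P2F
import Pool.Agent.H14.GWQ.P2Q
import Pool.Agent.H74.GWQ.PAQ
import Pool.Agent.H25.GWQ.PLQ
import Pool.Agent.H14.GWQ.POQ
import Pool.Agent.H86.GWQ.PPQ
import Pool.Agent.H70.GWQ.PUQ
import Pool.Agent.H36.GWQ.PVQ
import Pool.Agent.H45.GWQ.R1Q
import Pool.Agent.H31.GWQ.R2Q
import Pool.Agent.H67.GWQ.RGQ
import Pool.Agent.H40.GWQ.RWQ
import Pool.Agent.H64.GWQ.SMQ
import Pool.Agent.H2.GWQ.SOQ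
import Pool.Agent.H18.GWQ.TRN
import Pool.Agent.H21.GWQ.TUQ
import Pool.Agent.H55.GWQ.UNI
import Pool.Agent.H73.GWT.All
import Pool.Agent.H73.GWQ.RESQ

/-! All rows of the board gwq together. -/

set_option autoImplicit false
open Classical
namespace GWQ

section qm

variable {G V : Type*} [Group G] (D : QM G V)

theorem aH4 : H4QStmt D := H4Q D (H4T V)
theorem aNEA : NEAStmt D := NEA D (aH4 D)
theorem aTRN : TRNStmt D := TRN D (aH4 D)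
theorem aSOQ (B : Type*) : SOQStmt D B := SOQ D (PLQ D B (PPQ D))
theorem aB3 : B3QStmt D := B3Q D (aH4 D) (B1Q D) (B2Q D (aH4 D))
theorem aB5 : B5QStmt D := B5Q D (aB3 D) (B4Q D (aH4 D) (aB3 D))
theorem aB6 (S : Type*) : B6QStmt D S := B6Q S D (B1Q D) (aB3 D) (aB5 D) (aNEA D) (aTRN D)
theorem aN1 : N1QStmt D := N1Q D (aH4 D)
theorem aN3 : N3QStmt D := n3q D (aH4 D) (aN1 D)
theorem aN4 : N4QStmt D := N4Q D (aN3 D)
theorem aN5 : N5QStmt D := N5Q D (aN3 D) (aN4 D)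
theorem aN6 : N6QStmt D := N6Q D (aN1 D) (aN4 D) (aNEA D) (aTRN D)
theorem aN7 : N7QStmt D :=
  N7Q D (aN1 D) (aN5 D) (aN6 D) (aTRN D) (NEB D (aH4 D) (aNEA D))
theorem aN8 : N8QStmt D := N8Q D (aN1 D) (aN4 D) (aN7 D)
theorem aN9 : N9QStmt D := N9Q D (aN3 D)

end qm

section code
variable {ι G V : Type*} [Fintype ι] [Group G] (C : QCode ι G V)

theorem aGSQ : GSQStmt C := GSQ C (aH4 C.toQM)
theorem aUNI : UNIStmt C := UNI C (aH4 C.toQM) (aGSQ C)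
theorem aINQ : INQStmt C := INQ C (POQ C)
theorem aMVQ : MVQStmt C := MVQ C (POQ C) (aINQ C)
theorem aMUQ : MUQStmt C := MUQ C (aUNI C) (PUQ C (aUNI C)) (aINQ C)
theorem aSMQ : SMQStmt C := SMQ C (aMVQ C) (aMUQ C) (MWQ C) (GWT.ENC _ _ _)
theorem aGLQ : GLQStmt C := GLQ C (aH4 C.toQM) (aGSQ C)
theorem aPVQ : PVQStmt C := PVQ C (GWT.FIB _ _) (aSMQ C) (aGLQ C) (aINQ C)
theorem aRGQ : RGQStmt C := RGQ C (aNEA C.toQM) (aTRN C.toQM)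
theorem aTUQ : TUQStmt C := TUQ C (aH4 C.toQM) (aNEA C.toQM) (aGLQ C)
theorem aP2F : P2FStmt C := P2F C (aRGQ C) (aTUQ C) (aGLQ C) (aGSQ C) (aINQ C)
theorem aP2Q : P2QStmt C := P2Q C (aP2F C) (GWT.FIB _ _) (aSMQ C)
theorem aRWQ (S : Type*) [Fintype S] : RWQStmt C S := RWQ C S (aH4 C.toQM)
theorem aR1Q (S : Type*) [Fintype S] : R1QStmt C S := R1Q C S (aH4 C.toQM) (aRWQ C S) (aPVQ C)
theorem aR2Q (S : Type*) [Fintype S] : R2QStmt C S := R2Q C S (aH4 C.toQM) (aRWQ C S) (aP2Q C)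
theorem aC3Q (S : Type*) [Fintype S] : C3QStmt C S :=
  C3Q C S (aR1Q C S) (aR2Q C S) (C1Q C S (PAQ V)) (C2Q C S (OVL V))
theorem aGFQ : GFQStmt C :=
  GFQ C (fun S _ => aC3Q C S) (fun B => aSOQ C.toQM B) (fun S _ => GWT.RUN S (GWT.RU1 S) (GWT.BLO S))
    (fun S => GWT.BLO S) GWT.CPU

end code

end GWQ
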