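import Pool.Agent.H73.GWT.Basic

/-!
Project GWQ (MP_213ba5_lc, quasi-trees and WPD elements): definitions.

`d` is a left invariant pseudo-metric on `G` (in the application the distance of orbit points of
an action), within `δ` of the metric of a tree on which `G` need not act.  Lists of letters are
NEWEST FIRST in the pivot part.
-/

set_option autoImplicit false

open Classical

namespace GWQ

/-- A left invariant pseudo-metric on `G` that is `δ`-close to a tree metric. -/
structure QM (G V : Type*) [Group G] where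
  T : SimpleGraph V
  tree : T.IsTree
  f : G → V
  d : G → G → ℕ
  δ : ℕ
  inv : ∀ k g h : G, d (k * g) (k * h) = d g h
  comm : ∀ g h : G, d g h = d h g
  tri : ∀ g h k : G, d g k ≤ d g h + d h k
  self : ∀ g : G, d g g = 0
  le1 : ∀ g h : G, d g h ≤ T.dist (f g) (f h) + δ
  le2 : ∀ g h : G, T.dist (f g) (f h) ≤ d g h + δ

/-- A code: `M ^ 2` elements with `Λ ≤ |c s| ≤ Λ'`, nearly additive fifth powers, which diverge
before their ends (`sep`, `sep'`), and rigid (`rig`). -/
structure QCode (ι G V : Type*) [Fintype ι] [Group G] extends QM G V where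
  c : ι → G
  Λ : ℕ
  Λ' : ℕ
  K : ℕ
  M : ℕ
  K_pos : 1 ≤ K
  hδ : 4 * δ ≤ K
  M_big : 8 ≤ M
  card : Fintype.card ι = M ^ 2
  lo : ∀ s, Λ ≤ d 1 (c s)
  hi : ∀ s, d 1 (c s) ≤ Λ'
  p5 : ∀ s, 5 * d 1 (c s) ≤ d 1 ((c s) ^ 5) + K
  sep : ∀ s t, s ≠ t → d 1 (c s) + 30 * K < d (c s) (c t) + d 1 (c t)
  sep' : ∀ s t, s ≠ t → d 1 (c s) + 30 * K < d (c s)⁻¹ (c t)⁻¹ + d 1 (c t)
  ratio : Λ' + 10 * K ≤ 2 * Λ
  big : 100 * K ≤ Λ
  offs : 2 * Λ' + 1 ≤ M
  rig : ∀ s, {k : G | d 1 k ≤ 30 * K ∧ d (c s) (k * c s) ≤ 30 * K}.Finite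

section code

variable {ι G V : Type*} [Fintype ι] [Group G] (C : QCode ι G V)

/-- the norm -/
def QM.nm (D : QM G V) (g : G) : ℕ := D.d 1 g

/-- `W [s_m, …, s_1] = w_0 σ_{s_1} w_1 … σ_{s_m} w_m`, `σ_s = (c s) ^ 5`. -/
def W (w : ℕ → G) : List ι → G
  | [] => w 0
  | s :: l => W w l * C.c s ^ 5 * w (l.length + 1)

/-- `W (c ++ m) = W m * vv c m.length` -/
def vv (w : ℕ → G) : List ι → ℕ → G
  | [], _ => 1
  | s :: c, k => vv w c k * C.c s ^ 5 * w (k + c.length + 1)

/-- the element from the end of `σ_s` to the end of the content `a` of a frame with `k` letters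
below it -/
def tl (w : ℕ → G) (a : List ι) (k : ℕ) : G := w (k + 1) * vv C w a (k + 1)

/-- left-bad -/
def LB (g : G) (s : ι) : Prop := C.nm (g * C.c s) + C.nm (C.c s) ≤ C.nm g + 3 * C.K

/-- right-bad -/
def RB (s : ι) (u : G) : Prop := C.nm (C.c s) + C.nm (C.c s * u) ≤ C.nm u + 3 * C.K

/-- all frames: not left-bad where they start, not right-bad with respect to the content -/
def Ok (w : ℕ → G) : List (ι × List ι) → List ι → Prop
  | [], _ => True
  | f :: F, b =>
    ¬ LB C (W C w (GWT.full F b)) f.1 ∧ ¬ RB C f.1 (tl C w f.2 (GWT.full F b).length) ∧ Ok w F b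

/-- popping: the top frame is removed as long as it is right-bad; first component: how many -/
noncomputable def pop (w : ℕ → G) : List (ι × List ι) → List ι → List ι →
    ℕ × (List (ι × List ι) × List ι)
  | [], acc, b => (0, [], acc ++ b)
  | f :: F, acc, b =>
    if RB C f.1 (tl C w (acc ++ f.2) (GWT.full F b).length) then
      ((pop w F (acc ++ f.2 ++ [f.1]) b).1 + 1, (pop w F (acc ++ f.2 ++ [f.1]) b).2)
    else (0, (f.1, acc ++ f.2) :: F, b)

/-- good step -/
def Good (w : ℕ → G) (x : ι) (l : List ι) : Prop :=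
  ¬ LB C (W C w l) x ∧ ¬ RB C x (w (l.length + 1))

/-- the state after reading `l` -/
noncomputable def St (w : ℕ → G) : List ι → List (ι × List ι) × List ι
  | [] => ([], [])
  | x :: l =>
    if Good C w x l then ((x, []) :: (St w l).1, (St w l).2)
    else (pop C w (GWT.ini (LB C (W C w l) x) x (St w l).1).1
      (GWT.ini (LB C (W C w l) x) x (St w l).1).2.1 (St w l).2).2

/-- messages -/
inductive Msg (ι : Type*) where
  | good : Msg ι
  | bad (lb : Bool) (lf : Option ι) (r : ℕ) : Msg ι

/-- the message of the step from `l` to `x :: l` -/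
noncomputable def msg (w : ℕ → G) (x : ι) (l : List ι) : Msg ι :=
  if Good C w x l then Msg.good
  else Msg.bad (decide (LB C (W C w l) x)) (GWT.ini (LB C (W C w l) x) x (St C w l).1).2.2
    (pop C w (GWT.ini (LB C (W C w l) x) x (St C w l).1).1
      (GWT.ini (LB C (W C w l) x) x (St C w l).1).2.1 (St C w l).2).1

/-- weight of a message -/
noncomputable def omg (X : ℝ) : Msg ι → ℝ
  | Msg.good => X
  | Msg.bad _ lf r => (X⁻¹) ^ (lf.toList.length + r)

/-- valid messages -/
def Val : Msg ι → Prop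
  | Msg.good => True
  | Msg.bad lb lf _ => lb = false → lf = none

/-- offsets of the tracked letters, top first -/
noncomputable def offs (w : ℕ → G) : List (ι × List ι) → List ι → List ℕ
  | [], _ => []
  | f :: F, b => (C.nm (W C w (GWT.full F b) * C.c f.1) + C.Λ' - C.nm (W C w (GWT.full F b))) ::
      offs w F b

end code

section qm

variable {G V : Type*} [Group G] (D : QM G V)

/-- Some translate `g [1, y]` overlaps `[1, x]` in the opposite direction along a segment of
length at least `θ` (up to the error of the tree approximation). -/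
def Cmp (θ : ℕ) (x y : G) : Prop :=
  ∃ g : G, D.nm (g * y) + D.d x g + 2 * θ ≤ D.nm x + D.nm y

/-- The geodesic from `f 1` to `v` in the tree is cut into pieces, each a forward part of
`[f g, f (g c)]`, `c` in the list (top first). -/
def Pc : List G → V → Prop
  | [], v => v = D.f 1
  | c :: σ, v => ∃ (g : G) (u : V), GWT.Bt D.T (D.f 1) u v ∧
      D.T.dist (D.f g) u + D.T.dist u v + D.T.dist v (D.f (g * c)) =
        D.T.dist (D.f g) (D.f (g * c)) ∧ Pc σ u

end qm

end GWQ
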