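import Pool.Agent.H73.GWQ.All
import Pool.Agent.H99.GWQ.PTT
import Pool.Agent.H80.GWQ.PTD
import Pool.Agent.H31.GWQ.TPW
import Pool.Agent.H53.GWQ.STR
import Pool.Agent.H55.GWQ.KER

/-!
Project GWQ: the conclusion.
-/

set_option autoImplicit false

open Classical

universe u v w

namespace GWQ

theorem aKER {V : Type u} {W : Type v} : KERStmt V W :=
  KER (fun W₂ => PTT W₂) (fun W₂ => ptd_thm (PTT W₂)) (STR V W (TPW V W))

theorem FIN {G : Type w} {V : Type u} {W : Type v} [Group G] [MulAction G V]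
    {X : SimpleGraph V} (hX : X.Connected)
    (act : ∀ (g : G) (u v : V), X.Adj u v → X.Adj (g • u) (g • v))
    {T : SimpleGraph W} (hT : T.IsTree) (F : V → W) (L : ℕ)
    (hF : ∀ u v : V, X.dist u v ≤ L * (T.dist (F u) (F v) + 1) ∧
      T.dist (F u) (F v) ≤ L * (X.dist u v + 1))
    {k : ℕ} (rels : Set (FreeGroup (Fin k))) (φ : FreeGroup (Fin k) →* G)
    (hφ : Function.Surjective φ) (hrels : ∀ r ∈ rels, φ r = 1)
    (o : V) (h : G) (A : ℕ) (hlox : ∀ n : ℕ, n ≤ A * (X.dist o (h ^ n • o) + 1))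
    (hwpd : ∀ R : ℕ, ∃ n : ℕ,
      {x : G | X.dist o (x • o) ≤ R ∧ X.dist (h ^ n • o) (x • h ^ n • o) ≤ R}.Finite)
    (hidx : (Subgroup.zpowers h).index = 0) :
    ∃ f : List (Fin k × Bool) →. Bool,
      Partrec f ∧
      (∀ w : List (Fin k × Bool), ∀ b ∈ f w,
        (b = true ↔ FreeGroup.mk w ∈ Subgroup.normalClosure rels)) ∧
      (∃ C κ : ℝ, 0 < C ∧ 0 < κ ∧ κ < 1 ∧
        ∀ n : ℕ, ({w : List (Fin k × Bool) | w.length = n ∧ ¬ (f w).Dom}.ncard : ℝ) ≤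
          C * κ ^ n * ({w : List (Fin k × Bool) | w.length = n}.ncard : ℝ)) ∧
      Filter.Tendsto
        (fun n : ℕ =>
          ({w : List (Fin k × Bool) | w.length ≤ n ∧ (f w).Dom}.ncard : ℝ) /
            ({w : List (Fin k × Bool) | w.length ≤ n}.ncard : ℝ))
        Filter.atTop (nhds 1) := by
  obtain ⟨W₂, T₂, F₂, c, hT₂, h1, h2⟩ :=
    (aKER (V := V) (W := W)) X T hX hT F L (fun u v => (hF u v).2) (fun u v => (hF u v).1)
  exact RESQ (ISO G V) (fun D => N2Q D) (fun D => aN8 D) (fun D => aN9 D)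
    (fun D S => aB6 D S) (fun n C => aGFQ C) hX act hT₂ F₂ c h1 h2 rels φ hφ hrels o h A hlox
    hwpd hidx

end GWQ
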