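import Pool.Agent.H73.GWQ.Defs
import Pool.Agent.H73.GWT.Stmts

/-!
Project GWQ (MP_213ba5_lc, second part: quasi-trees): the rows.

The rows of the board gwt that do not mention a `Code` are reused (`GWT.ENCStmt, FIBStmt, RU1Stmt,
RUNStmt, BLOStmt, CPUStmt`), and the tree facts of H73/GWT/Basic.lean (`GWT.dcomm, dtri, dzero,
UNQ, EXI, ORD, CAT, cen_spec, CEN1, CEN2, CEN3, SID`).  `nm g = d 1 g` is the norm:
`nm g⁻¹ = nm g`, `d g h = nm (g⁻¹ h)`, `nm (g h) ≤ nm g + nm h`.  `4 δ ≤ K`.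

Almost all geometric rows are `omega` after a few uses of the four point inequality `H4Q`.
-/

set_option autoImplicit false

open Classical

namespace GWQ

/-- **H4T** (four point inequality in a tree). With `p = cen x y z` and the position of `w`:
e.g. let `m` be the centre of `x, y, z` and `m'` the centre of `x, y, w`; if `d(x,m) ≤ d(x,m')`
then `d(x,y) + d(z,w) = d(x,w) + d(y,z)` or `≤` (path from `z` to `w` through `m`, `m'`), else
`≤ d(x,z) + d(y,w)`; all distances by `Bt` and `ORD` on `[x, y]`. -/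
def H4TStmt (V : Type*) : Prop :=
  ∀ (T : SimpleGraph V), T.IsTree → ∀ x y z w : V,
    T.dist x y + T.dist z w ≤ max (T.dist x z + T.dist y w) (T.dist x w + T.dist y z)

section qm

variable {G V : Type*} [Group G] (D : QM G V)

/-- **H4Q** (four point inequality in `G`). `H4T` for the images under `f`, and `le1`, `le2`
(four errors `δ`). -/
def H4QStmt : Prop :=
  ∀ x y z w : G, D.d x y + D.d z w ≤ max (D.d x z + D.d y w) (D.d x w + D.d y z) + 4 * D.δ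

/-- **NEA** (two points near one segment at the same distance from its start). `H4Q` for
`(1, u; p, q)`: `nm u + d p q ≤ max (nm p + d u q) (nm q + d u p) + 4 δ`. -/
def NEAStmt : Prop :=
  ∀ (u p q : G) (a e : ℕ), D.nm p + D.d p u ≤ D.nm u + a → D.nm q + D.d q u ≤ D.nm u + a →
    D.nm p ≤ D.nm q + e → D.nm q ≤ D.nm p + e → D.d p q ≤ a + e + 4 * D.δ

/-- **TRN** (moving the ends of a segment by at most `R`). `p` near `[1, z]`, `h` moves `1` by at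
most `R` and `h z` to a point at distance at most `R` from `u`; `p` is far from both ends.  Then
`h p` is near `[1, u]`.  Two uses of `H4Q`: first for `(1, h p; h, h z)`, i.e.
`d(1, hp) + d(h, hz) ≤ max (d(1, h) + d(hp, hz)) (d(1, hz) + d(hp, h)) + 4 δ`, where the first
option is impossible because `nm p` is large; then for `(1, u; hp, hz)`-type: `d(1, hz) + d(hp, u) ≤
max (d(1, hp) + d(hz, u)) (d(1, u) + d(hz, hp)) + 4 δ`, where the first option is impossible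
because `d p z` is large. -/
def TRNStmt : Prop :=
  ∀ (h u p z : G) (R a : ℕ), D.nm h ≤ R → D.d (h * z) u ≤ R →
    D.nm p + D.d p z ≤ D.nm z + a → R + a + 8 * D.δ < D.nm p → R + a + 8 * D.δ < D.d p z →
    D.nm (h * p) + D.d (h * p) u ≤ D.nm u + a + 8 * D.δ

end qm

section code

variable {ι G V : Type*} [Fintype ι] [Group G] (C : QCode ι G V)

/-! ### Geometry of one step (all by `H4Q`, `p5` and the triangle inequality; `K ≥ 4 δ`) -/

/-- **GSQ** (good step). `L = nm c_s`, `g_i = g c_s^i`, `x = g_5 u`.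
`H4Q (1, g_1; g, g_5)`: `nm g_1 + d(g, g_5) ≤ max (nm g + d(g_1, g_5)) (nm g_5 + d(g, g_1)) + K`,
`d(g, g_5) ≥ 5 L - K`, `d(g_1, g_5) ≤ 4 L`: the first option contradicts `¬ LB`, so
`nm g_1 + 4 L ≤ nm g_5 + 2 K`.
`H4Q (x, g_4; g_5, 1)`: `d(x, g_4) + nm g_5 ≤ max (d(x, g_5) + nm g_4) (nm x + d(g_4, g_5)) + K`,
`d(x, g_4) = nm (c_s u)`, `d(x, g_5) = nm u`, `nm g_4 ≤ nm g_1 + 3 L`: the first option
contradicts `¬ RB`, the second is the claim. -/
def GSQStmt : Prop :=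
  ∀ (g u : G) (s : ι), ¬ LB C g s → ¬ RB C s u →
    C.nm (g * C.c s) + 3 * C.nm (C.c s) + C.nm (C.c s * u) ≤ C.nm (g * C.c s ^ 5 * u) + 3 * C.K

/-- **UNI** (decoding letters).
(1) `H4Q (g, 1; g c_x, g c_y)`: `nm g + d(c_x, c_y) ≤ max (L_x + nm (g c_y)) (L_y + nm (g c_x)) + K
≤ nm g + |L_x - L_y| + 4 K`, so `x = y` by `sep` (both orders).
(2) the same with inverses (`RB x u`: `nm (c_x u) = d(c_x⁻¹, u)`), `sep'`.
(3) `g = m c_t⁵ v`, `g' = m' c_t⁵ v`, `P = m c_t²`, `p = g⁻¹ P = v⁻¹ c_t⁻³ = g'⁻¹ m' c_t²`.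
By `GSQ` (hypotheses `¬ LB m t`, `¬ RB t v`): `nm P + d(P, g) ≤ nm g + 3 K` and
`d(P, g) ≥ 2 L_t - 3 K ≥ Λ' + 7 K`.  In the frame `g`: `q = g⁻¹`, `LB g x` says
`d(c_x, q) + L_x ≤ nm q + 3K`; `H4Q (1, q; c_x, p)`:
`nm q + d(c_x, p) ≤ max (L_x + d(q, p)) (nm p + d(q, c_x)) + K`; the first option gives
`nm p ≤ L_x + 2 K`, impossible; so `d(c_x, p) + L_x ≤ nm p + 4 K`, the same for `y` (with `g'`);
`H4Q (1, p; c_x, c_y)`: `d(c_x, c_y) ≤ |L_x - L_y| + 5 K`; `sep`. -/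
def UNIStmt : Prop :=
  (∀ (g : G) (x y : ι), LB C g x → LB C g y → x = y) ∧
  (∀ (x y : ι) (u : G), RB C x u → RB C y u → x = y) ∧
  (∀ (m m' v : G) (t x y : ι), ¬ LB C m t → ¬ LB C m' t → ¬ RB C t v →
    LB C (m * C.c t ^ 5 * v) x → LB C (m' * C.c t ^ 5 * v) y → x = y)

/-! ### The stack -/

/-- **POQ** (popping). Induction on `F`.  (1) letters; (2) number of frames; (3) the frames left
are ok (the kept top frame by the test, with content `acc ++ f.2`). -/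
def POQStmt : Prop :=
  ∀ (w : ℕ → G) (F : List (ι × List ι)) (acc b : List ι), Ok C w F b →
    GWT.full (pop C w F acc b).2.1 (pop C w F acc b).2.2 = acc ++ GWT.full F b ∧
    (pop C w F acc b).2.1.length + (pop C w F acc b).1 = F.length ∧
    Ok C w (pop C w F acc b).2.1 (pop C w F acc b).2.2

/-- **INQ** (invariant). Induction on `l`, `POQ`; good step: content `[]`,
`tl w [] n = w (n + 1) * 1`. -/
def INQStmt : Prop :=
  ∀ (w : ℕ → G) (l : List ι),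
    GWT.full (St C w l).1 (St C w l).2 = l ∧ Ok C w (St C w l).1 (St C w l).2

/-- **MVQ** (messages are valid, weights). As `GWT.MVA` (helper17's file). -/
def MVQStmt : Prop :=
  ∀ (w : ℕ → G) (x : ι) (l : List ι),
    Val (msg C w x l) ∧
    ∀ X : ℝ, 0 < X →
      X ^ (St C w (x :: l)).1.length = X ^ (St C w l).1.length * omg X (msg C w x l)

/-- **PUQ** (popping is decoded by the number of popped frames). Induction on `F`, general `F'`,
`acc`.  Equal counts: both heads kept (masks `((acc ++ f.2) :: F₁.map snd, b)`) or both popped: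
then `RB f.1 v`, `RB f'.1 v` with the same `v` (`(full F₁ b).length = (full F₁' b).length`), so
`f.1 = f'.1` by `UNI` (2), and induction with `acc ++ f.2 ++ [f.1]`. -/
def PUQStmt : Prop :=
  ∀ (w : ℕ → G) (F F' : List (ι × List ι)) (acc b : List ι),
    F.map Prod.snd = F'.map Prod.snd →
    (pop C w F acc b).1 = (pop C w F' acc b).1 →
    GWT.mask (pop C w F acc b).2 = GWT.mask (pop C w F' acc b).2

/-- **MUQ** (a step is decoded by the message). As `GWT.MUN` (helper86's file): both `good`: clear.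
Both `bad`, `lb = true`, empty stack: `l = b = l'`, `UNI` (1).  `lb = true`, stacks `f :: F₁`,
`f' :: F₁'`: the message tells `f.1 = f'.1 = t`; contents equal; `W l = m c_t⁵ v`,
`v = tl f.2 k`, `m = W (full F₁ b)` (a `W_append` for the present `W`: `W (c ++ m) = W m * vv c
m.length`); `INQ` gives `¬ LB m t`, `¬ RB t v`; `UNI` (3).  `lb = false`: `RB x (w (n+1))`,
`UNI` (2).  Then `PUQ`. -/
def MUQStmt : Prop :=
  ∀ (w : ℕ → G) (x x' : ι) (l l' : List ι),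
    GWT.mask (St C w l) = GWT.mask (St C w l') → msg C w x l = msg C w x' l' →
    GWT.mask (St C w (x :: l)) = GWT.mask (St C w (x' :: l'))

/-- **MWQ** (total weight of the messages). `X = M`, `N = M²`: `good`: `M`; `lb = true`:
`(1 + N/M) ∑_r M^(-r) ≤ 2 (1 + M)`; `lb = false`: `∑_r M^(-r) ≤ 2`.  Total `≤ 3 M + 4 ≤ 4 M`. -/
def MWQStmt : Prop :=
  ∀ 𝓜 : Finset (Msg ι), (∀ μ ∈ 𝓜, Val μ) → ∑ μ ∈ 𝓜, omg (C.M : ℝ) μ ≤ 4 * (C.M : ℝ)

/-- **SMQ** (sum over the masks). As `GWT.SMW` (helper62's file), by `GWT.ENC`. -/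
def SMQStmt : Prop :=
  ∀ (w : ℕ → G) (n : ℕ) (𝓓 : Finset (List (List ι) × List ι)),
    (∀ D ∈ 𝓓, ∃ l : List ι, l.length = n ∧ GWT.mask (St C w l) = D) →
    ∑ D ∈ 𝓓, (C.M : ℝ) ^ D.1.length ≤ (4 * (C.M : ℝ)) ^ n

/-- **GLQ** (global alignment; no accumulation of errors). For a frame `f` with `g = W (letters
below)`, `A = g c_f`, `B = g c_f²`, `z = W (all letters)`.
Next-frame lemma: let `x = g c_f⁵ v` (`v` = `tl` of the content) be the end of the content.  By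
`GSQ`: `nm A + 3 L + nm(c_f v) ≤ nm x + 3 K`, so `nm A + d(A,x) ≤ nm x + 3 K`, `nm B + d(B,x) ≤
nm x + 3K`, `nm B ≥ nm A + L - 3K`, `d(B,x) ≥ 2L - 3K`.  If there is a frame above, it starts at
`x` with `A' = x c'`; `H4Q (1, x; B, A')`: `nm x + d(B,A') ≤ max (nm B + L') (nm A' + d(B,x)) + K`,
the first option is impossible (`2Λ - 3K > Λ' + 4 K`), so `nm B + d(B,A') ≤ nm A' + 4K`; the same
for `A`; `nm A' ≥ nm A + Λ - 11 K`.
Global: by induction from the top frame downwards, `nm A + d(A,z) ≤ nm z + 5K`: top: `3K`;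
`H4Q (1, A'; A, z)`: `nm A' + d(A,z) ≤ max (nm A + d(A',z)) (nm z + d(A,A')) + K`; the first option
is impossible since `nm A' - nm A ≥ Λ - 11 K > 3K`; the second gives `nm A + d(A,z) ≤ nm z + 5K`.
For `B`: if `nm A' - nm B > 3K` the same argument gives `5K`; otherwise `d(B,A') ≤ 7K` and
`nm B + d(B,z) ≤ nm A' + d(A',z) + 14K ≤ nm z + 19K`.
Numbers: `Q.length ≤ nm A` (each frame adds at least `1`, base `nm ≥ 0`), and
`nm A + P.length + Λ ≤ nm z`.  (`P` = frames above, `Q` = frames below.) -/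
def GLQStmt : Prop :=
  ∀ (w : ℕ → G) (P Q : List (ι × List ι)) (f : ι × List ι) (b : List ι),
    Ok C w (P ++ f :: Q) b →
    (let g := W C w (GWT.full Q b)
     let z := W C w (GWT.full (P ++ f :: Q) b)
     C.nm (g * C.c f.1) + C.d (g * C.c f.1) z ≤ C.nm z + 5 * C.K ∧
     C.nm (g * C.c f.1 ^ 2) + C.d (g * C.c f.1 ^ 2) z ≤ C.nm z + 19 * C.K ∧
     Q.length ≤ C.nm (g * C.c f.1) ∧
     C.nm (g * C.c f.1) + P.length + C.Λ ≤ C.nm z)

/-- **PVQ** (linear progress). As `GWT.PV1`: fibre over a mask with `h` frames: at most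
`N^h = M^(2h)` words, `nm (W l) ≥ h` (`GLQ`, `INQ`), so the sum over the fibre is
`≤ M^(2h) M^(-h)`; `GWT.FIB`, `SMQ`. -/
def PVQStmt : Prop :=
  ∀ (w : ℕ → G) (n : ℕ),
    GWP.wsum n (fun l : List ι => (1 / (C.M : ℝ)) ^ (C.nm (W C w l))) ≤ (4 * (C.M : ℝ)) ^ n

/-- **RGQ** (rigidity). The same `m`, `s`; `A = m c_s`, `B = m c_s²` near `[1,z]` and `[1,z']`, far
from the ends; `h z`, `h' z'` near `u`.  By `TRN` (`a = 19K`) `hA, hB, h'A, h'B` are near `[1,u]`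
(`19K + 2K`), by `NEA` (`e = 0`) `d(hA, h'A) ≤ 22 K`, `d(hB, h'B) ≤ 22K`.  `k = A⁻¹ h⁻¹ h' A`:
`nm k = d(hA, h'A)`, `d(c_s, k c_s) = d(hB, h'B)`. -/
def RGQStmt : Prop :=
  ∀ (m h h' z z' u : G) (s : ι) (R : ℕ),
    C.nm h ≤ R → C.nm h' ≤ R → C.d (h * z) u ≤ R → C.d (h' * z') u ≤ R →
    (∀ i ∈ ({1, 2} : Set ℕ), C.nm (m * C.c s ^ i) + C.d (m * C.c s ^ i) z ≤ C.nm z + 19 * C.K ∧
      C.nm (m * C.c s ^ i) + C.d (m * C.c s ^ i) z' ≤ C.nm z' + 19 * C.K ∧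
      R + 21 * C.K < C.nm (m * C.c s ^ i) ∧ R + 21 * C.K < C.d (m * C.c s ^ i) z ∧
      R + 21 * C.K < C.d (m * C.c s ^ i) z' ∧
      C.nm (h * (m * C.c s ^ i)) = C.nm (h' * (m * C.c s ^ i))) →
    (m * C.c s)⁻¹ * h⁻¹ * h' * (m * C.c s) ∈
      {k : G | C.nm k ≤ 30 * C.K ∧ C.d (C.c s) (k * C.c s) ≤ 30 * C.K}

/-- **TUQ** (for a fixed `u` all letters but the `E` highest are decoded). `F, F'` two ok stacks
with the same mask and base, `z, z'` their elements, `d(z, u) ≤ R`, `d(z', u) ≤ R`, equal offsets,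
the same letters in the highest `E` frames, `R + 10 K ≤ E`.  Claim `F = F'`.  Proof (model
`GWT.TUN`, helper51's file, `TUN_low`, `TUN_tail`): induction from the bottom; `F = P ++ f :: Q`,
`F' = P' ++ f' :: Q`, `m = W (full Q b)`.  If `P.length < E`: hypothesis.  Otherwise the offsets give
`nm (m c_f) = nm (m c_f')` (`nm (m c) + Λ' ≥ nm m`), `GLQ`: both near `[1,z]`, `[1,z']` (`5K`), and
`d(m c_f, z) ≥ P.length + Λ > R + 7K`, so near `[1,u]` with `6K` (`TRN` with `h = 1`, or directly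
`H4Q`), `NEA`: `d(m c_f, m c_f') ≤ 7K + ...< 30 K`, i.e. `d(c_f, c_f') ≤ 30 K`; `sep` in both
orders gives `f.1 = f'.1`. -/
def TUQStmt : Prop :=
  ∀ (w : ℕ → G) (F F' : List (ι × List ι)) (b : List ι) (u : G) (R E : ℕ),
    R + 10 * C.K ≤ E → Ok C w F b → Ok C w F' b →
    F.map Prod.snd = F'.map Prod.snd →
    C.d (W C w (GWT.full F b)) u ≤ R → C.d (W C w (GWT.full F' b)) u ≤ R →
    offs C w F b = offs C w F' b →
    (F.map Prod.fst).take E = (F'.map Prod.fst).take E →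
    F = F'

/-- **P2Q** (few words are mapped near a given element by an element of bounded norm). Let
`E = R + 40 K + 2 Λ' + 2`.  Fibre over a mask with `n` frames (base and contents fixed).  If
`n < 2 E`: at most `N^(2E)` words.  Otherwise, for each word `l` of the fibre with a witness `h_l`
(`nm h ≤ R`, `d(h W l, u) ≤ R`) record: the letters of the lowest `E` frames and of the highest
`E` frames (`≤ N^(2E)`), the offsets of all frames (`≤ 2Λ'`: `(2Λ'+1)^n ≤ M^n`), and for the frame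
number `E` from below (letter `s`, `m` = element below it) the numbers `nm (h m c_s^i) - nm (m c_s^i)
+ R ∈ [0, 2R]`, `i = 1, 2`; in a class with the same data choose a reference word `l₀`, and record
`k_l = (m c_s)⁻¹ h_{l₀}⁻¹ h_l (m c_s)`, an element of the finite set `rig s` (`RGQ`; `GLQ`:
`nm (m c_s) ≥ E - 1`, `nm (m c_s²) ≥ nm (m c_s) - ...`: by `GSQ`-type bound
`nm (m c_s²) ≥ nm (m c_s) + L - 3K`, and `d(·, z) ≥ nm z - nm · ≥ E + Λ - Λ'`), at most `e₀` values.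
If all this agrees for `l, l'` then `h_l = h_{l'} = h`, and `TUQ` with `h⁻¹ u` gives `l = l'`.  So the
fibre has at most `A M^n` words, `A = N^(2E) (2R+1)² e₀`; `GWT.FIB`, `SMQ`. -/
def P2QStmt : Prop :=
  ∀ R : ℕ, ∃ A : ℝ, 0 < A ∧ ∀ (w : ℕ → G) (n : ℕ) (u : G),
    GWP.wsum n (fun l : List ι => if ∃ h : G, C.nm h ≤ R ∧ C.d (h * W C w l) u ≤ R
      then (1 : ℝ) else 0) ≤ A * (4 * (C.M : ℝ)) ^ n

/-- **P2F** (the count in one fibre, used in `P2Q`): for a fixed set of `n`-frame masks. See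
`P2Q`. -/
def P2FStmt : Prop :=
  ∀ R : ℕ, ∃ A : ℝ, 0 < A ∧ ∀ (w : ℕ → G) (n : ℕ) (u : G) (D : List (List ι) × List ι),
    GWP.wsum n (fun l : List ι => if GWT.mask (St C w l) = D then
      (if ∃ h : G, C.nm h ≤ R ∧ C.d (h * W C w l) u ≤ R then (1 : ℝ) else 0) else 0) ≤
      A * (C.M : ℝ) ^ D.1.length

/-! ### Random words -/

/-- **RWQ** (random words in blocks). As `GWT.RWB` (helper3's file) with `c_s⁵`, `N = M²`,
`4 M ≤ M²/2`.  The words `wd s` are different (`c_s⁵ = c_t⁵` contradicts `sep`: then `c_s` and `c_t`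
are both near `[1, c_s⁵]`, `d(c_s, c_t) ≤ |L_s - L_t| + 2K`). -/
def RWQStmt (S : Type*) [Fintype S] : Prop :=
  ∀ (e : S → G) (wd : ι → List S) (k₀ : ℕ) (F : G → ℝ) (A : ℝ), 1 ≤ k₀ →
    (∀ s, (wd s).length = k₀) → (∀ s, GWP.ev e (wd s) = C.c s ^ 5) → 0 ≤ A → (∀ g, 0 ≤ F g) →
    (∀ (w : ℕ → G) (m : ℕ), GWP.wsum m (fun l : List ι => F (W C w l)) ≤
      A * (4 * (C.M : ℝ)) ^ m) →
    ∀ r : ℕ, GWP.wsum r (fun z : List S => F (GWP.ev e z)) ≤
      A * (Fintype.card S : ℝ) ^ r *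
        (1 - (C.M : ℝ) ^ 2 / 2 / (Fintype.card S : ℝ) ^ k₀) ^ (r / k₀)

/-- **R1Q** (linear progress). As `GWT.RW1`. -/
def R1QStmt (S : Type*) [Fintype S] : Prop :=
  ∀ (e : S → G) (wd : ι → List S) (k₀ : ℕ), 1 ≤ k₀ →
    (∀ s, (wd s).length = k₀) → (∀ s, GWP.ev e (wd s) = C.c s ^ 5) →
    ∃ c κ A : ℝ, 0 < c ∧ 0 < κ ∧ κ < 1 ∧ 0 < A ∧ ∀ r : ℕ,
      GWP.wsum r (fun z : List S =>
        if (C.nm (GWP.ev e z) : ℝ) < c * r then (1 : ℝ) else 0) ≤
        A * κ ^ r * (Fintype.card S : ℝ) ^ r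

/-- **R2Q** (few words connect the neighbourhoods of two vertices of the tree). `RWQ` with
`F g = 1[∃ h, nm h ≤ R' ∧ d(h g, u) ≤ R']`, `P2Q`, `R' = 2R + δ`: if `Q, P` are given and some
`(h₀, z₀)` satisfies `dist(f h₀, Q) ≤ R`, `dist(f (h₀ z₀), P) ≤ R`, then for every other `(h, z)`
`h' = h₀⁻¹ h` has `nm h' ≤ 2R + δ` and `d(h' z, z₀) ≤ 2R + δ` (`u = z₀`). -/
def R2QStmt (S : Type*) [Fintype S] : Prop :=
  ∀ (e : S → G) (wd : ι → List S) (k₀ R : ℕ), 1 ≤ k₀ →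
    (∀ s, (wd s).length = k₀) → (∀ s, GWP.ev e (wd s) = C.c s ^ 5) →
    ∃ κ A : ℝ, 0 < κ ∧ κ < 1 ∧ 0 < A ∧ ∀ (r : ℕ) (Q P : V),
      GWP.wsum r (fun z : List S => if ∃ h : G, C.T.dist (C.f h) Q ≤ R ∧
        C.T.dist (C.f (h * GWP.ev e z)) P ≤ R then (1 : ℝ) else 0) ≤
        A * κ ^ r * (Fintype.card S : ℝ) ^ r

end code

/-- **OVL** (overlap in a tree). If `d(a,b) + d(c,e) ≥ d(a,e) + d(b,c) + 2τ` then `[a,b]` and
`[c,e]` overlap in opposite directions along at least `τ`.  `P = cen a b e`, `Q = cen a b c`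
(`τ ≥ 1`; for `τ = 0` take `P = Q = a`... any point if they meet; the row assumes `1 ≤ τ`). With
`p = d(a,P)`, `q = d(a,Q)`: if `q ≤ p` then `d(a,e) + d(b,c) = d(a,b) + ... + d(P,e) + d(Q,c) +
(p - q) ≥ d(a,b) + d(c,e)`-type inequality contradicts `τ ≥ 1`; if `p < q` then `d(c,e) =
d(c,Q) + (q - p) + d(P,e)` and the hypothesis says `q - p ≥ τ`. -/
def OVLStmt (V : Type*) : Prop :=
  ∀ (T : SimpleGraph V), T.IsTree → ∀ (a b c e : V) (τ : ℕ), 1 ≤ τ →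
    T.dist a e + T.dist b c + 2 * τ ≤ T.dist a b + T.dist c e →
    ∃ P Q : V, τ ≤ T.dist P Q ∧ T.dist a P + T.dist P Q + T.dist Q b = T.dist a b ∧
      T.dist c Q + T.dist Q P + T.dist P e = T.dist c e

/-- **PAQ** (passages of a path in a tree). As in `GWT.PAS` (helper25's file): `j` the first index
with `Bt Q P (y j)`, `i < j` the last index with `Bt (y i) Q P`; `GWT.SID`, `GWT.CAT`. -/
def PAQStmt (V : Type*) : Prop :=
  ∀ (T : SimpleGraph V), T.IsTree → ∀ (y : ℕ → V) (n D : ℕ) (Q P : V), Q ≠ P →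
    (∀ i < n, T.dist (y i) (y (i + 1)) ≤ D) →
    T.dist (y 0) Q + T.dist Q P + T.dist P (y n) = T.dist (y 0) (y n) →
    ∃ i j : ℕ, i ≤ j ∧ j ≤ n ∧ T.dist (y i) Q ≤ D ∧ T.dist (y j) P ≤ D ∧
      T.dist Q P ≤ D * (j - i)

section code2

variable {ι G V : Type*} [Fintype ι] [Group G] (C : QCode ι G V)

/-- **C1Q** (words passing a given pair of vertices of the tree backwards). As `GWT.CT1` (helper71's
file): by `PAQ` for `y j = f (g b_1 … b_j)` (steps `≤ D₁ = D + δ`), the indicator of `b` is at most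
the sum over `i ≤ L`, `r ≤ L - i`, `θ ≤ D₁ r` of `1[∃ h, dist(f h, Q) ≤ D₁ ∧ dist(f (h ev z), P) ≤
D₁]`, `z` = the subword of length `r` at place `i`; at most `(L+1)²` terms, each at most
`A κ^(θ/D₁) q^L`. -/
def C1QStmt (S : Type*) [Fintype S] : Prop :=
  ∀ (e : S → G) (D₁ : ℕ), 1 ≤ D₁ → (∀ (g : G) (s : S), C.T.dist (C.f g) (C.f (g * e s)) ≤ D₁) →
    ∀ (κ A : ℝ), 0 < κ → κ < 1 → 0 < A →
    (∀ (r : ℕ) (Q P : V),
      GWP.wsum r (fun z : List S => if ∃ h : G, C.T.dist (C.f h) Q ≤ D₁ ∧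
        C.T.dist (C.f (h * GWP.ev e z)) P ≤ D₁ then (1 : ℝ) else 0) ≤
        A * κ ^ r * (Fintype.card S : ℝ) ^ r) →
    ∀ (L θ : ℕ) (Q P : V), 1 ≤ θ → θ ≤ C.T.dist Q P →
      GWP.wsum L (fun b : List S => if ∃ g : G,
        C.T.dist (C.f g) Q + C.T.dist Q P + C.T.dist P (C.f (g * GWP.ev e b)) =
          C.T.dist (C.f g) (C.f (g * GWP.ev e b))
        then (1 : ℝ) else 0) ≤
      (L + 1) ^ 2 * A * κ ^ (θ / D₁) * (Fintype.card S : ℝ) ^ L

/-- **C2Q** (comparable blocks are rare). `1[Cmp θ x (ev b)]`: by `OVL` for `a = f 1`, `b' = f x`,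
`c = f g`, `e' = f (g ev b)` (errors: `2 θ - 4 δ`, so `τ = θ - 2δ`) there are `P, Q` on `[f 1, f x]`
with `dist(P,Q) ≥ τ` as in `C1Q`; at most `(dist(f 1, f x) + 1)²` pairs (as in `GWT.CT2`, helper26's
file). -/
def C2QStmt (S : Type*) [Fintype S] : Prop :=
  ∀ (e : S → G) (L θ : ℕ) (B : ℝ), 0 ≤ B → 2 * C.δ < θ →
    (∀ (Q P : V), θ - 2 * C.δ ≤ C.T.dist Q P →
      GWP.wsum L (fun b : List S => if ∃ g : G,
        C.T.dist (C.f g) Q + C.T.dist Q P + C.T.dist P (C.f (g * GWP.ev e b)) =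
          C.T.dist (C.f g) (C.f (g * GWP.ev e b))
        then (1 : ℝ) else 0) ≤ B) →
    ∀ x : G, GWP.wsum L (fun b : List S => if Cmp C.toQM θ x (GWP.ev e b) then (1 : ℝ) else 0) ≤
      ((C.T.dist (C.f 1) (C.f x) : ℝ) + 1) ^ 2 * B

/-- **C3Q** (choice of the parameters). As `GWT.CT3` (helper16's file).  `D ≥ 1`, `D ≥ nm (e s)`,
`D₁ = D + δ`; `c` from `R1Q`; `E = D L + δ`, `c₁ + δ` in place of `c₁` in the short blocks,
`θ` with `8 θ ≤ c₁`, `θ > 4 δ`, `R = ⌈12 D / c⌉ + 3` or so (only `6 E + 2 c₁ ≤ R c₁` for large `L`);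
`c₁ = ⌊c L⌋ - δ`, `θ = c₁ / 8`, `L` large; `Cmp (θ - 2δ)`: by `C2Q`, `C1Q` at most
`(DL + δ + 1)² (L+1)² A κ^((θ - 4δ)/D₁)`. -/
def C3QStmt (S : Type*) [Fintype S] : Prop :=
  ∀ (e : S → G) (D : ℕ), 1 ≤ D → (∀ s, C.nm (e s) ≤ D) →
    ∀ (wd : ι → List S) (k₀ : ℕ), 1 ≤ k₀ →
    (∀ s, (wd s).length = k₀) → (∀ s, GWP.ev e (wd s) = C.c s ^ 5) →
    ∃ R : ℕ, ∀ ε : ℝ, 0 < ε → ∃ L c₁ θ : ℕ, 1 ≤ L ∧ 1 ≤ c₁ ∧ 4 * C.δ < θ ∧ 8 * θ ≤ c₁ ∧
      6 * (D * L + C.δ) + 2 * c₁ ≤ R * c₁ ∧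
      GWP.wsum L (fun b : List S => if C.nm (GWP.ev e b) < c₁ + C.δ then (1 : ℝ) else 0) ≤
        ε * (Fintype.card S : ℝ) ^ L ∧
      ∀ x : G, C.nm x ≤ D * L →
        GWP.wsum L (fun b : List S =>
          if Cmp C.toQM (θ - 2 * C.δ) x (GWP.ev e b) then (1 : ℝ) else 0) ≤
          ε * (Fintype.card S : ℝ) ^ L

end code2

/-! ### Polygons -/

section qm2

variable {G V : Type*} [Group G] (D : QM G V)

/-- **PPQ** (popping pieces). As `GWT.PPS` (helper33's file) in the tree `D.T`, sides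
`[f g, f (g c)]`. -/
def PPQStmt : Prop :=
  ∀ (θ : ℕ) (q : G → Prop) (σ : List G) (v m : V), Pc D σ v → GWT.Bt D.T (D.f 1) m v →
    (∀ (c g : G) (P Q : V), D.T.dist m P + D.T.dist P Q + D.T.dist Q v = D.T.dist m v →
      θ ≤ D.T.dist P Q →
      D.T.dist (D.f g) P + D.T.dist P Q + D.T.dist Q (D.f (g * c)) =
        D.T.dist (D.f g) (D.f (g * c)) → q c) →
    ∃ r ≤ σ.length, Pc D (σ.drop r) m ∧
      (D.T.dist m v ≤ θ * (r + 1) ∨ ∃ c ∈ σ.take (r + 1), q c)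

/-- **PLQ** (polygon lemma). As `GWT.PLY` (helper54's file) in the tree: the vertices are `f` of the
partial products, `ℓ_i = dist(f x_{i-1}, f x_i) ≤ E`, and `ℓ_i ≥ c₁` unless `sh b_i`.  A claim: side
`[f g, f (g c)]` passes `P, Q`, side `[f x, f (x b)]` passes `Q, P`, `dist(P,Q) ≥ θ`, so
`dist(f g, f(g c)) + dist(f x, f (x b)) ≥ dist(f g, f (x b)) + dist(f (g c), f x) + 2θ`, hence
`Cmp (θ - 2δ) c b` with `g⁻¹ x` (four errors `δ`).  The sum is over the sides: it is at least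
`c₁ (number of blocks - number of sh-blocks)`, which is what is recorded. -/
def PLQStmt (B : Type*) : Prop :=
  ∀ (val : B → G) (sh : B → Bool) (cmp : B → B → Bool) (θ E c₁ : ℕ) (ok : B → Prop),
    2 * D.δ ≤ θ →
    (∀ b, ok b → ∀ g : G, D.T.dist (D.f g) (D.f (g * val b)) ≤ E) →
    (∀ b, ok b → sh b = false → ∀ g : G, c₁ ≤ D.T.dist (D.f g) (D.f (g * val b))) →
    (∀ c b, ok c → ok b → Cmp D (θ - 2 * D.δ) (val c) (val b) → cmp c b = true) →
    ∀ bs : List B, (∀ b ∈ bs, ok b) → ∃ cfg ∈ GWT.runs sh cmp bs,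
      Pc D (cfg.1.map val) (D.f (bs.map val).prod) ∧ (∀ c ∈ cfg.1, ok c) ∧
      bs.countP sh ≤ cfg.2 ∧
      c₁ * bs.length + 2 * θ * cfg.1.length ≤
        D.T.dist (D.f 1) (D.f (bs.map val).prod) + c₁ * bs.countP sh + 2 * E * cfg.2 +
          4 * θ * bs.length

/-- **SOQ** (soundness). As `GWT.SOU` (helper93's file), from `PLQ`; `ℓ ≤ nm + δ`, `ℓ ≥ nm - δ`. -/
def SOQStmt (B : Type*) : Prop :=
  ∀ (val : B → G) (sh : B → Bool) (cmp : B → B → Bool) (θ E c₁ R : ℕ) (ok : B → Prop),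
    1 ≤ c₁ → 4 * D.δ < θ → 8 * θ ≤ c₁ → 6 * (E + D.δ) + 2 * c₁ ≤ R * c₁ →
    (∀ b, ok b → D.nm (val b) ≤ E) →
    (∀ b, ok b → D.nm (val b) < c₁ + D.δ → sh b = true) →
    (∀ c b, ok c → ok b → Cmp D (θ - 2 * D.δ) (val c) (val b) → cmp c b = true) →
    ∀ bs : List B, (∀ b ∈ bs, ok b) → D.nm (bs.map val).prod ≤ E →
      ∃ cfg ∈ GWT.runs sh cmp bs, bs.length ≤ R * (cfg.2 + 1)

end qm2

section code3

variable {ι G V : Type*} [Fintype ι] [Group G] (C : QCode ι G V)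

/-- **GFQ** (assembly for a code). As `GWT.GFN` (helper48's file), with `C3Q`, `SOQ`, `GWT.RUN`,
`GWT.BLO`, `GWT.CPU`. -/
def GFQStmt : Prop :=
  ∀ (k : ℕ) (e : Fin k × Bool → G) (wd : ι → List (Fin k × Bool)) (k₀ : ℕ), 1 ≤ k₀ →
    (∀ s, (wd s).length = k₀) → (∀ s, GWP.ev e (wd s) = C.c s ^ 5) →
    ∃ A : List (Fin k × Bool) → Prop, ComputablePred A ∧ (∀ w, GWP.ev e w = 1 → A w) ∧
      ∃ K κ : ℝ, 0 < K ∧ 0 < κ ∧ κ < 1 ∧ ∀ n : ℕ,
        GWP.wsum n (fun w : List (Fin k × Bool) => if A w then (1 : ℝ) else 0) ≤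
          K * κ ^ n * (Fintype.card (Fin k × Bool) : ℝ) ^ n

end code3

/-! ### From two elements to a code -/

section letters

variable {G V : Type*} [Group G] (D : QM G V)

/-- The hypotheses on two elements: no cancellation in products, divergence, length. -/
structure Pair (a b : G) (k : ℕ) : Prop where
  hδ : 4 * D.δ ≤ k
  k_pos : 1 ≤ k
  mul : ∀ x ∈ ({a, b} : Set G), ∀ y ∈ ({a, b} : Set G), D.nm x + D.nm y ≤ D.nm (x * y) + k
  div : D.nm a + D.nm b ≤ D.d a b + k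
  div' : D.nm a + D.nm b ≤ D.d a⁻¹ b⁻¹ + k
  long : ∀ x ∈ ({a, b} : Set G), 1000 * k ≤ D.nm x

/-- **B1Q** (the conditions are symmetric). `nm (x⁻¹ y⁻¹) = nm ((y x)⁻¹)`. -/
def B1QStmt : Prop := ∀ (a b : G) (k : ℕ), Pair D a b k → Pair D a⁻¹ b⁻¹ k ∧ Pair D b a k

/-- **B2Q** (local to global, from the left). `x` a letter, `l` a nonempty word:
`nm x + nm (pr l) ≤ nm (x pr l) + 2k`.  Induction on `l = y :: l₂`: `H4Q (1, x y; x, x pr l)`:
`nm (xy) + nm (pr l) ≤ max (nm x + nm (pr l₂)) (nm (x pr l) + nm y) + k`; the second option is the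
claim (`nm (xy) ≥ nm x + nm y - k`), the first one contradicts the induction hypothesis
`nm y + nm (pr l₂) ≤ nm (pr l) + 2k` and `nm y ≥ 1000 k` (`l₂` empty: directly `mul`). -/
def B2QStmt : Prop :=
  ∀ (a b : G) (k : ℕ), Pair D a b k → ∀ x ∈ ({a, b} : Set G), ∀ l : List Bool, l ≠ [] →
    D.nm x + D.nm (GWT.prw a b l) ≤ D.nm (x * GWT.prw a b l) + 2 * k

/-- **B3Q** (local to global). `nm (pr l) + nm (pr l') ≤ nm (pr (l ++ l')) + 3k` for all words.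
If one is empty: clear.  Otherwise let `l' = y :: l''`, `p = pr l`, `p₂ = p y`, `q = pr (l ++ l')`:
`nm p + nm y ≤ nm p₂ + 2k` (`B2Q` for the pair `a⁻¹, b⁻¹` and the reversed word:
`(prw a b l)⁻¹ = prw a⁻¹ b⁻¹ l.reverse`), `nm y + d(p₂, q) ≤ d(p, q) + 2k` (`B2Q`; equality if `l''`
is empty), `H4Q (1, p₂; p, q)`. -/
def B3QStmt : Prop :=
  ∀ (a b : G) (k : ℕ), Pair D a b k → ∀ l l' : List Bool,
    D.nm (GWT.prw a b l) + D.nm (GWT.prw a b l') ≤ D.nm (GWT.prw a b (l ++ l')) + 3 * k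

/-- **B4Q** (divergence of words with different first letters). `x ≠ y` the letters, `p = pr (x l)`,
`q = pr (y l')`: `nm p + nm q ≤ d(p, q) + 10 k`.  `H4Q (1, p; x, q)` etc.: first
`nm p + d(x,y)...`: `x` is near `[1,p]` (`B3Q`), `y` near `[1,q]`, `nm x + nm y ≤ d(x,y) + k`;
`H4Q (1, x; y, p)`: `nm x + d(y,p) ≤ max (nm y + d(x,p)) (nm p + d(x,y)) + k` ... gives
`nm y + nm p ≤ d(y,p) + 5k`, then the same with `q`. -/
def B4QStmt : Prop :=
  ∀ (a b : G) (k : ℕ), Pair D a b k → ∀ (x : Bool) (l l' : List Bool),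
    D.nm (GWT.prw a b (x :: l)) + D.nm (GWT.prw a b ((!x) :: l')) ≤
      D.d (GWT.prw a b (x :: l)) (GWT.prw a b ((!x) :: l')) + 10 * k

/-- **B5Q** (separation). Different words `l, l'` of the same length:
`nm (pr l) + 400 k < d(pr l, pr l') + nm (pr l')`.  Common prefix `u`, `l = u ++ x :: l₁`,
`l' = u ++ !x :: l₂`; `d(pr l, pr l') = d(pr (x::l₁), pr (!x::l₂))`, `B4Q`, `B3Q`,
`nm (pr (!x :: l₂)) ≥ 1000 k - 3k`. -/
def B5QStmt : Prop :=
  ∀ (a b : G) (k : ℕ), Pair D a b k → ∀ l l' : List Bool, l.length = l'.length → l ≠ l' →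
    D.nm (GWT.prw a b l) + 400 * k <
      D.d (GWT.prw a b l) (GWT.prw a b l') + D.nm (GWT.prw a b l')

/-- **B6Q** (the code). `K = 12 k`; for `s : Fin m → Bool` let `l_s = false :: (concatenation over i
of [false, true] if s i = false, [true, false] if s i = true)`; `c s = prw a b l_s`; all `l_s` have
`m + 1` letters `false` and `m` letters `true`: `S = (m+1) nm a + m nm b`, `Λ' = S`,
`Λ = S - 2 m · 3k` (`B3Q`, `2m` times).  `m = 2 m'`, `M = 2^m'`, `m'` large (`2 S + 1 ≤ 2^m'`,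
`8 ≤ 2^m'`).  `p5`: `B3Q` four times (`12 k`).  `sep`: `B5Q`, `sep'`: `B5Q` for `a⁻¹, b⁻¹`
(`B1Q`) and reversed words.  `rig`: `k'` with `nm k' ≤ 30K`, `d(c_s, k' c_s) ≤ 30 K`: `p = a` is near
`[1, c_s]` (`B3Q`), `TRN` (`h = k'`, `z = u = c_s`, `R = 360k`) and `NEA` (`e = 360 k`) give
`d(a, k' a) ≤ 400 k`; so `k'` is in the finite set `hfin`.  `wd s` = five copies of the word of `c s`,
`k₀ = 5 ((m+1) |ua| + m |ub|) ≥ 1` (`|ua| ≥ 1` because `nm a ≥ 1`). -/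
def B6QStmt (S : Type*) : Prop :=
  ∀ (a b : G) (k : ℕ), Pair D a b k →
    {g : G | D.nm g ≤ 400 * k ∧ D.d a (g * a) ≤ 400 * k}.Finite →
    ∀ (e : S → G) (ua ub : List S), GWP.ev e ua = a → GWP.ev e ub = b →
      ∃ (n : ℕ) (C : QCode (Fin n → Bool) G V) (wd : (Fin n → Bool) → List S) (k₀ : ℕ),
        1 ≤ k₀ ∧ (∀ s, (wd s).length = k₀) ∧ (∀ s, GWP.ev e (wd s) = C.c s ^ 5)

end letters

end GWQ
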