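import Pool.Agent.H73.GWQ.Stmts

/-!
Project GWQ, second part: from a loxodromic WPD element to the two elements of `Pair`.
`D : QM G V`, `nm g = d 1 g`, `H4QStmt D` is the four point inequality with error `4 δ`.
-/

set_option autoImplicit false

open Classical

namespace GWQ

section wpd

variable {G V : Type*} [Group G] (D : QM G V)

/-- `g` is regular: its square is longer (this is true for a power of every loxodromic element) -/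
def Reg (g : G) : Prop := D.nm g + 8 * D.δ + 1 ≤ D.nm (g ^ 2)

/-- the defect `B` of the powers of a regular element -/
def BB (g : G) : ℕ := 2 * D.nm g + 8 * D.δ - D.nm (g ^ 2)

/-- WPD -/
def WPD (g : G) : Prop :=
  ∀ R : ℕ, ∃ n : ℕ, {x : G | D.nm x ≤ R ∧ D.d (g ^ n) (x * g ^ n) ≤ R}.Finite

/-- **N1Q** (powers of a regular element). With `B = BB g < nm g`:
(1) `nm (g^m) + nm (g^n) ≤ nm (g^(m+n)) + B`; (2) `nm (g^n) + 1 ≤ nm (g^(n+1))`, so `n ≤ nm (g^n)`.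
Proof: like `B2Q`, `B3Q` with `k` replaced by `e₀ = 2 nm g - nm (g²)` (`e₀ + 8δ = B`,
`nm g ≥ B + 1`).  First `nm g + nm (g^n) ≤ nm (g^(n+1)) + e₀ + 4δ` by induction on `n` (`n ≥ 1`):
`H4Q (1, g²; g, g^(n+1))`: `nm (g²) + nm (g^n) ≤ max (nm g + nm (g^(n-1))) (nm (g^(n+1)) + nm g) + 4δ`;
the first option contradicts the induction hypothesis `nm g + nm (g^(n-1)) ≤ nm (g^n) + e₀ + 4δ`.
Then (1) for `n ≥ 1`: `H4Q (1, g^(m+1); g^m, g^(m+n))`. -/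
def N1QStmt : Prop :=
  ∀ g : G, Reg D g →
    (∀ m n : ℕ, D.nm (g ^ m) + D.nm (g ^ n) ≤ D.nm (g ^ (m + n)) + BB D g) ∧
    (∀ n : ℕ, D.nm (g ^ n) + 1 ≤ D.nm (g ^ (n + 1))) ∧ (∀ n : ℕ, n ≤ D.nm (g ^ n))

/-- **N2Q** (a power of a loxodromic element is regular). If `nm (h^(2^(i+1))) ≤ nm (h^(2^i)) + c`
for all `i` (`c = 8δ`), then `nm (h^(2^i)) ≤ nm h + c i`, contradicting `2^i ≤ A (nm (h^(2^i)) + 1)`.
So `g = h^(2^i)`. -/
def N2QStmt : Prop :=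
  ∀ (h : G) (A : ℕ), (∀ n : ℕ, n ≤ A * (D.nm (h ^ n) + 1)) → ∃ N : ℕ, 1 ≤ N ∧ Reg D (h ^ N)

/-- **N3Q** (parallel segments). `u_m = g^(i + s m)`, `v_m = x g^(j + m)`, `s = ±1`; if the ends
(`m = 0`, `m = L`) are at distance `≤ R`, then `d(u_m, v_m) ≤ R + B + 4δ` for `0 ≤ m ≤ L`: `H4Q
(u_0, u_L; u_m, v_m)` and `nm (g^L) ≥ nm (g^m) + nm (g^(L-m)) - B`; `nm (g^(-n)) = nm (g^n)`. -/
def N3QStmt : Prop :=
  ∀ g : G, Reg D g → ∀ (x : G) (i j s : ℤ) (L m R : ℕ), (s = 1 ∨ s = -1) → m ≤ L →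
    D.d (g ^ i) (x * g ^ j) ≤ R → D.d (g ^ (i + s * L)) (x * g ^ (j + L)) ≤ R →
    D.d (g ^ (i + s * m)) (x * g ^ (j + m)) ≤ R + BB D g + 4 * D.δ

/-- **N4Q** (WPD sets). (1) for every `R` there is `n₀` such that for all `n ≥ n₀` the set
`{x | nm x ≤ R, d(g^n, x g^n) ≤ R}` is finite (it is contained in the set for `R + B + 4δ` and `n₀`:
`N3Q` with `i = j = 0`, `L = n`, `m = n₀`); (2) the same for `{x | nm x ≤ R, d(g^(-n), x g^n) ≤ R}`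
(if `x₀, x` belong to it, then `x₀⁻¹ x` belongs to the set of (1) for `2R`). -/
def N4QStmt : Prop :=
  ∀ g : G, Reg D g → WPD D g → ∀ R : ℕ, ∃ n₀ : ℕ, ∀ n ≥ n₀,
    {x : G | D.nm x ≤ R ∧ D.d (g ^ n) (x * g ^ n) ≤ R}.Finite ∧
    {x : G | D.nm x ≤ R ∧ D.d (g ^ (-(n : ℤ))) (x * g ^ n) ≤ R}.Finite

/-- **N5Q** (long parallel segments force commensuration). For every `R` there are `L`, `n ≥ 1`
such that every `x` with `d(g^i, x g^j) ≤ R`, `d(g^(i+sL), x g^(j+L)) ≤ R` satisfies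
`x g^n = g^n x` or `x g^n = g^(-n) x`.  Proof: `R₂ = R + B + 4δ`, `n₀` from `N4Q` for `R₂`, `Y` the
(finite) union of the two sets for `n₀`, `e = Y.ncard`, `L = n₀ + e + 1`, `n = (e+1)!`.  For
`0 ≤ m ≤ e + 1` let `y_m = g^(-i - s m) x g^(j+m)`: by `N3Q` `nm y_m ≤ R₂` and
`d(g^(s n₀), y_m g^(n₀)) ≤ R₂`, so `y_m ∈ Y`; pigeonhole: `y_m = y_{m'}`, `m < m'`:
`x g^(m'-m) = g^(s (m'-m)) x`, and `m' - m ≤ e + 1` divides `(e+1)!`. -/
def N5QStmt : Prop :=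
  ∀ g : G, Reg D g → WPD D g → ∀ R : ℕ, ∃ L n : ℕ, 1 ≤ n ∧ ∀ (x : G) (i j s : ℤ),
    (s = 1 ∨ s = -1) → D.d (g ^ i) (x * g ^ j) ≤ R →
    D.d (g ^ (i + s * L)) (x * g ^ (j + L)) ≤ R →
    x * g ^ n = g ^ n * x ∨ x * g ^ n = g ^ (-(n : ℤ)) * x

/-- **N6Q** (the commensurator is virtually cyclic). If all `x ∈ G` satisfy `x g^n = g^(±n) x`
(`n ≥ 1` fixed), then `⟨g⟩` has finite index.  Proof: let `x ∈ G`; then `x g^(kn) = g^(±kn) x` for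
all `k ∈ ℤ`, so `d(g^(±kn), x g^(kn)) = nm x`.  For large `k` (`n k > 2 nm x + ...`) `x` is near the
segment `[g^(-kn), g^(kn)]`: translate by `g^(kn)` resp. use `TRN` (`p = g^(kn)` in the segment
`[1, g^(2kn)]` ...), so `d(g^(-kn), x) + d(x, g^(kn)) ≤ nm (g^(2kn)) + B + 8δ`; there is `j` with
`|d(g^(-kn), g^j) - d(g^(-kn), x)| ≤ nm g` (steps of the axis), and `NEA` gives
`d(g^j, x) ≤ R₃ = B + 12 δ + nm g`.  So `x' = g^(-j) x` has `nm x' ≤ R₃` and satisfies the same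
relation, `d(g^(±kn), x' g^(kn)) = nm x' ≤ R₃`: it lies in one of two finite sets (`N4Q` for `R₃`, a
multiple `k n ≥ n₀`, `k ≥ 1`).  Hence `G` is a finite union of cosets `⟨g⟩ x'`. -/
def N6QStmt : Prop :=
  ∀ g : G, Reg D g → WPD D g → ∀ n : ℕ, 1 ≤ n →
    (∀ x : G, x * g ^ n = g ^ n * x ∨ x * g ^ n = g ^ (-(n : ℤ)) * x) →
    (Subgroup.zpowers g).index ≠ 0

/-- **NEB** (points near two segments with a long common part). `H4Q (1, P; u, Q)`: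
`nm P + d(u,Q) ≤ max (nm u + d(P,Q)) (nm Q + d(u,P)) + 4δ`: in both cases
`nm u + d(u,Q) ≤ nm Q + a + 4 δ`; then `NEA` for `u, v` and the segment `[1, Q]` with `a + 4δ`. -/
def NEBStmt : Prop :=
  ∀ (P Q u v : G) (a e : ℕ), D.nm u + D.d u P ≤ D.nm P + a → D.nm v + D.d v Q ≤ D.nm Q + a →
    2 * D.nm u + D.d P Q ≤ D.nm P + D.nm Q → D.nm u ≤ D.nm v + e → D.nm v ≤ D.nm u + e →
    D.d u v ≤ a + e + 8 * D.δ

/-- **N7Q** (bounded overlap). If `⟨g⟩` has infinite index there are `x` and `K₁` such that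
`nm (g^p) + nm (x g^q) ≤ d(g^p, x g^q) + K₁` for all integers `p, q`.  Proof: put
`R = 3 B + 24 δ + nm g`, `L, n` from `N5Q`; by `N6Q` some `x` does not satisfy the conclusion of
`N5Q`.  Suppose `nm (g^p) + nm (x g^q) > d(g^p, x g^q) + K₁`, `K₁` huge compared with `nm x`,
`nm (g^L)`, `nm g`, `B`, `δ`; then `nm (g^p), nm (x g^q) ≥ K₁/2`.  Write `s, t` for the signs of
`p, q`, `u_i = g^(s i)`, `0 ≤ i ≤ |p|`, `v_j = x g^(t j)`, `0 ≤ j ≤ |q|`.  `u_i` is near `[1, g^p]` with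
defect `B` (`N1Q`); `v_j` is near `[1, x g^q]` with defect `a = B + 8δ` if `nm (g^j)` and
`nm (g^(|q|-j))` are `> nm x + B + 8δ` (`TRN` with `h = x`, `z = g^q`, `u = x g^q`).  Take `j₁` minimal
with `nm v_{j₁} ≥ 2 nm x + B + 8δ + 1` (then `nm (g^j₁) > nm x + B + 8 δ`; `nm v_{j₁}` is at most this
bound plus `nm g`) and `i₁` with `nm u_{i₁} ≤ nm v_{j₁} ≤ nm u_{i₁} + nm g` (steps of the axis are
`≤ nm g`, `u_0 = 1`).  `NEB` with `e = nm g`: `d(u_{i₁}, v_{j₁}) ≤ R`.  For `i₁ + L`, `j₁ + L`: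
`nm u_{i₁+L} ∈ [nm u_{i₁} + nm (g^L) - B, nm u_{i₁} + nm (g^L)]`, and `nm v_{j₁+L} ≤ nm v_{j₁} + nm (g^L)`,
`nm v_{j₁+L} ≥ nm (x g^q) - d(v_{j₁+L}, x g^q) ≥ nm v_{j₁} + nm (g^L) - B - a` (defects of `v_{j₁}` and of
`g^(t(j₁+L))` in `[g^(t j₁), g^q]`); `NEB` with `e = nm g + B + a`: `d(u_{i₁+L}, v_{j₁+L}) ≤ R`.
This is the hypothesis of `N5Q` (`t = 1`: `i = s i₁`, `j = j₁`, sign `s`; if `t = -1` read it
backwards: `i = s (i₁ + L)`, `j = -(j₁ + L)`, sign `-s`), a contradiction. -/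
def N7QStmt : Prop :=
  ∀ g : G, Reg D g → WPD D g → (Subgroup.zpowers g).index = 0 →
    ∃ (x : G) (K₁ : ℕ), ∀ p q : ℤ,
      D.nm (g ^ p) + D.nm (x * g ^ q) ≤ D.d (g ^ p) (x * g ^ q) + K₁

/-- **N8Q** (the pair). `a = g^p`, `b = x g^p x⁻¹` for large `p`; `k = K₁ + B + 8 nm x + 4 δ + 1` does
not depend on `p`.  `mul`: `a a`: `N1Q`; `b b = x g^(2p) x⁻¹`; `a b`: `nm (ab) = d(g^(-p), x g^p x⁻¹)
≥ d(g^(-p), x g^p) - nm x`; `b a`: `nm (ba) = d(b⁻¹, a) = d(x g^(-p) x⁻¹, g^p)`; `div`, `div'` with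
`d(g^p, x g^p)`, `d(g^(-p), x g^(-p))`; `|nm b - nm (g^p)| ≤ 2 nm x`, `|nm (x g^q) - nm (g^q)| ≤ nm x`.
`long`: `nm (g^p) ≥ p`.  Finiteness: `N4Q` for `R = 400 k`. -/
def N8QStmt : Prop :=
  ∀ g : G, Reg D g → WPD D g → (Subgroup.zpowers g).index = 0 →
    ∃ (a b : G) (k : ℕ), Pair D a b k ∧
      {y : G | D.nm y ≤ 400 * k ∧ D.d a (y * a) ≤ 400 * k}.Finite

/-- **N9Q** (powers). WPD and infinite index pass from `h` to `h^N` (`N ≥ 1`) if `h^N` is regular.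
WPD: `g = h^N`, `R` given; `c = max_{r < N} nm (h^r)`; let `n` be given by WPD of `h` for
`R + 2 c + B + 4 δ`; choose `n' N ≥ n`, so `h^n = g^m h^r` with `m ≤ n'`, `r < N`; if `nm x ≤ R` and
`d(g^n', x g^n') ≤ R` then `N3Q` (`i = j = 0`, `s = 1`) gives `d(g^m, x g^m) ≤ R + B + 4δ`, so
`d(h^n, x h^n) ≤ R + B + 4δ + 2c`.  Index: `⟨h⟩` is a finite union of cosets of `⟨h^N⟩`; if `⟨h^N⟩`
had finite index, the larger group `⟨h⟩` would have finite index. -/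
def N9QStmt : Prop :=
  ∀ (h : G) (N : ℕ), 1 ≤ N → Reg D (h ^ N) → WPD D h → (Subgroup.zpowers h).index = 0 →
    WPD D (h ^ N) ∧ (Subgroup.zpowers (h ^ N)).index = 0

end wpd

/-- **ISO** (automorphisms of a connected graph preserve the distance). -/
def ISOStmt (G V : Type*) [Group G] [MulAction G V] : Prop :=
  ∀ X : SimpleGraph V, X.Connected → (∀ (g : G) (u v : V), X.Adj u v → X.Adj (g • u) (g • v)) →
    ∀ (g : G) (u v : V), X.dist (g • u) (g • v) = X.dist u v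

end GWQ
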