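import Pool.Agent.H73.GWT.Basic

/-!
Project GWQ, third part: a connected graph that is quasi-isometrically embedded in a tree is
`(1, c)`-quasi-isometric to a tree.
-/

set_option autoImplicit false

open Classical

universe u v

namespace GWQ

/-- the graph of a parent function -/
def PTG {W : Type*} (lv : W → ℕ) (par : W → W) : SimpleGraph W :=
  SimpleGraph.fromRel (fun u v => 0 < lv u ∧ par u = v)

/-- **PTT** (the graph of a parent function is a tree). Connected: `par^[lv w] w = r`.  Acyclic:
take a vertex `w` of maximal level on a cycle and rotate the cycle so that it starts at `w`; its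
second vertex `x` and its last but one vertex `y` are different
(`SimpleGraph.Walk.IsCycle.snd_ne_penultimate`) and adjacent to `w`; `par x = w` is impossible
(`lv x = lv w + 1`), so `par w = x` and `par w = y`. -/
def PTTStmt (W : Type*) : Prop :=
  ∀ (lv : W → ℕ) (par : W → W) (r : W), (∀ w, lv w = 0 → w = r) →
    (∀ w, 0 < lv w → lv (par w) + 1 = lv w) → (PTG lv par).IsTree

/-- **PTD** (distances). For every walk from `u` to `v` there are `i ≤ lv u`, `j ≤ lv v` with
`par^[i] u = par^[j] v` and `i + j ≤` its length (induction on the walk `u, u', ...`: if `par u = u'`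
take `i' + 1, j'`; if `par u' = u` and `i' ≥ 1` take `i' - 1, j'`; if `i' = 0` then `u' = par^[j'] v`,
`0 < lv u'`, take `0, j' + 1`).  Conversely `dist u (par^[i] u) ≤ i` for `i ≤ lv u`.  Apply the first
to a walk of length `dist u v` (`PTT`: connected). -/
def PTDStmt (W : Type*) : Prop :=
  ∀ (lv : W → ℕ) (par : W → W) (r : W), (∀ w, lv w = 0 → w = r) →
    (∀ w, 0 < lv w → lv (par w) + 1 = lv w) →
    ∀ u v : W, ∃ i j : ℕ, i ≤ lv u ∧ j ≤ lv v ∧ par^[i] u = par^[j] v ∧
      (PTG lv par).dist u v = i + j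

/-- **TPW** (a coarse path in a tree passes near every vertex of the geodesic). Induction on the
walk: for `u, u', ...` either `t` is between `F u'` and `F v` (induction), or, by `GWT.SID`, between
`F u` and `F u'`, so `dist (F u) t ≤ E`. -/
def TPWStmt (V : Type u) (W : Type v) : Prop :=
  ∀ (X : SimpleGraph V) (T : SimpleGraph W), T.IsTree → ∀ (F : V → W) (E : ℕ),
    (∀ u v : V, X.Adj u v → T.dist (F u) (F v) ≤ E) →
    ∀ (u v : V) (p : X.Walk u v) (t : W), GWT.Bt T (F u) t (F v) →
      ∃ w ∈ p.support, T.dist (F w) t ≤ E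

/-- **STR** (bottleneck). `n = dist o u = dist o v`, `N = dist (F u) (F v)`, `t_j` the vertex of the
geodesic from `F u` to `F v` with `dist (F u) t_j = j` (`GWT.EXI`), `γ` a shortest walk from `u` to
`o`, `γ'` a shortest walk from `o` to `v`.  By `TPW` (`E = 2 L`) for `γ.append γ'` every `t_j` is
within `2 L` of `F q` for some `q` on `γ` (`A j`) or on `γ'` (`B j`); `A 0` (`q = u`) and `B N`
(`q = v`) hold.  So there is `j` with `A j` and (`B j` or `B (j+1)`): `q ∈ γ`, `q' ∈ γ'`,
`dist (F q) (F q') ≤ 4 L + 1`, `X.dist q q' ≤ L (4 L + 2)`.  By `TPW` for `p` some `w ∈ p.support`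
has `dist (F w) t_j ≤ 2 L`, so `X.dist q w ≤ L (4 L + 1)` and `dist o q ≥ n - L (4 L + 1)`, and
`X.dist u q = n - dist o q ≤ L (4 L + 1)`; in the same way `X.dist q' v ≤ L (4 L + 1)` (use
`t_j` or `t_(j+1)`). -/
def STRStmt (V : Type u) (W : Type v) : Prop :=
  ∀ (X : SimpleGraph V) (T : SimpleGraph W), X.Connected → T.IsTree → ∀ (F : V → W) (L : ℕ),
    (∀ u v : V, T.dist (F u) (F v) ≤ L * (X.dist u v + 1)) →
    (∀ u v : V, X.dist u v ≤ L * (T.dist (F u) (F v) + 1)) →
    ∀ (o u v : V) (p : X.Walk u v), (∀ w ∈ p.support, X.dist o u ≤ X.dist o w) →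
      X.dist o u = X.dist o v → X.dist u v ≤ L * (12 * L + 4)

/-- **KER** (A. Kerr's theorem in a special form). Fix `o`; level of `u` = `X.dist o u`.
`W₂` = the quotient of `V` by the relation: `u ~ v` iff they have the same level `n` and there is a
walk from `u` to `v` with all vertices of level `≥ n`; `F₂` the projection.  Level of a class: clear;
parent of the class of `u` (level `n ≥ 1`): the class of any neighbour `u'` of `u` of level `n - 1`
(it exists: a shortest walk to `o`; it does not depend on the choices: if `u ~ v` with the walk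
`p`, then `u', u, p, v, v'` has all levels `≥ n - 1`).  `T₂ = PTG`, a tree by `PTT` (`r` = the
class of `o`).
`T₂.dist (F₂ u) (F₂ v) ≤ X.dist u v`: adjacent vertices have the same class (same level; the walk is
the edge) or adjacent classes.
`X.dist u v ≤ T₂.dist (F₂ u) (F₂ v) + L (12 L + 4)`: `PTD` gives `i, j`; `u_i` = the vertex at
distance `i` from `u` on a shortest walk from `u` to `o`; `par^[i] (F₂ u) = F₂ (u_i)` (induction on
`i`), `par^[j] (F₂ v) = F₂ (v_j)`; so `X.dist u_i v_j ≤ L (12 L + 4)` by `STR`. -/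
def KERStmt (V : Type u) (W : Type v) : Prop :=
  ∀ (X : SimpleGraph V) (T : SimpleGraph W), X.Connected → T.IsTree → ∀ (F : V → W) (L : ℕ),
    (∀ u v : V, T.dist (F u) (F v) ≤ L * (X.dist u v + 1)) →
    (∀ u v : V, X.dist u v ≤ L * (T.dist (F u) (F v) + 1)) →
    ∃ (W₂ : Type u) (T₂ : SimpleGraph W₂) (F₂ : V → W₂) (c : ℕ), T₂.IsTree ∧
      (∀ u v : V, X.dist u v ≤ T₂.dist (F₂ u) (F₂ v) + c) ∧
      (∀ u v : V, T₂.dist (F₂ u) (F₂ v) ≤ X.dist u v + c)

end GWQ
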